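import Mathlib
import Pool.Agent.Helper37.Pe.Main

/-!
# Local PEPS approximation along arbitrary finite dimensional families of interactions

Let `h, O_1, ..., O_k` be Hermitian matrices on a finite region `R` and consider, for `s ∈ ℝ ^ k`,
the translation invariant Hamiltonians `H_L(s)` of the interaction `h + ∑ s_j O_j` on the tori.
No assumption on gaps, on uniqueness of ground states or on convergence is made.

(A) There is an exceptional set `E ⊆ ℝ ^ k` which is covered by countably many graphs of Lipschitz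
functions of `k - 1` of the coordinates (so `dimH E ≤ k - 1`; for `k = 1` the set `E` is
countable), such that for all `s ∉ E`:
* for every `ε > 0` one translationally invariant tensor of bond dimension `bondDim d R ε`
  reproduces, on all large tori, the expectation values of `O_1, ..., O_k` (normalised to entries of
  modulus at most one) in all invariant ground vectors of `H_L(s')`, for all `s'` near `s`, up to `ε`;
* if the `O_j` span the Hermitian matrices on `R`, then for every `R₀ ⊆ R` and `ε > 0` one tensor of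
  bond dimension `bondDim d R₀ ε` reproduces the reduced states on `R₀` up to `ε` in trace norm.

(B) Phase rule: the set of the parameters `s` for which the vectors of the expectation values of
`O_1, ..., O_k` in invariant ground vectors of `H_L(s)` have `j + 1` affinely independent limits as
`L → ∞` has Hausdorff dimension at most `k - j`, and for `j = k` it is countable.
-/

set_option autoImplicit false

open scoped NNReal
open Pool.Agent.H4R2
open Pool.Agent.Y665.PE (TransInv)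

namespace Pool.Agent.Results.MP_0f69bf_mp.PhaseDiagrams

/-- `E` is the least eigenvalue of `H`. -/
def LeastEigenvalue {n : Type} [Fintype n] (H : Matrix n n ℂ) (E : ℝ) : Prop :=
  (∃ ψ : n → ℂ, ψ ≠ 0 ∧ H.mulVec ψ = (E : ℂ) • ψ) ∧
    ∀ (E' : ℝ) (φ : n → ℂ), φ ≠ 0 → H.mulVec φ = (E' : ℂ) • φ → E ≤ E'

/-- `ψ` is a normalised eigenvector of `H` for the least eigenvalue, and an eigenvector of all
translations (this holds for every normalised ground vector if the ground space is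
one-dimensional). -/
def InvariantGroundVector {d L : ℕ} [NeZero L]
    (H : Matrix (Site L → Fin d) (Site L → Fin d) ℂ) (ψ : (Site L → Fin d) → ℂ) : Prop :=
  normSq ψ = 1 ∧ TransInv ψ ∧ ∃ E : ℝ, LeastEigenvalue H E ∧ H.mulVec ψ = (E : ℂ) • ψ

/-- `E ⊆ ℝ ^ k` is covered by countably many graphs `s_i = g s`, where `g` is a Lipschitz function
of the coordinates other than `s_i`. -/
def GraphCover {k : ℕ} (E : Set (Fin k → ℝ)) : Prop :=
  ∃ (i : ℕ → Fin k) (g : ℕ → (Fin k → ℝ) → ℝ), (∀ m, ∃ C : ℝ≥0, LipschitzWith C (g m)) ∧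
    (∀ m, ∀ s t : Fin k → ℝ, (∀ j, j ≠ i m → s j = t j) → g m s = g m t) ∧
    ∀ s ∈ E, ∃ m, s (i m) = g m s

/-- The vector `p` is a limit point, as `L → ∞`, of the expectation values of `O_1, ..., O_k` in
invariant ground vectors of `H_L(s)`. -/
def LimitValue {d : ℕ} (R : Finset (ℤ × ℤ)) {k : ℕ} (h : Matrix (R → Fin d) (R → Fin d) ℂ)
    (O : Fin k → Matrix (R → Fin d) (R → Fin d) ℂ) (s p : Fin k → ℝ) : Prop :=
  ∀ ε : ℝ, 0 < ε → ∀ N : ℕ, ∃ (L : ℕ) (_ : NeZero L), N ≤ L ∧
    ∃ ψ : (Site L → Fin d) → ℂ, InvariantGroundVector (ham R (h + ∑ j, (s j : ℂ) • O j) L) ψ ∧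
      ∀ j, ‖(O j * redState R ψ).trace - (p j : ℂ)‖ ≤ ε

/-- **Theorem.** -/
theorem result (d : ℕ) (hd : 2 ≤ d) (R : Finset (ℤ × ℤ)) (k : ℕ) (hk : 0 < k)
    (h : Matrix (R → Fin d) (R → Fin d) ℂ) (hh : h.IsHermitian)
    (O : Fin k → Matrix (R → Fin d) (R → Fin d) ℂ) (hO : ∀ j, (O j).IsHermitian) :
    -- (A)
    (∃ E : Set (Fin k → ℝ), GraphCover E ∧ dimH E ≤ (k - 1 : ℕ) ∧ ∀ s, s ∉ E →
      (∀ ε : ℝ, 0 < ε → ∃ A : Tensor d (bondDim d R ε), ∃ δ : ℝ, 0 < δ ∧ ∃ L₀ : ℕ,
        ∀ (L : ℕ) [NeZero L], L₀ ≤ L → contract A L ≠ 0 ∧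
          ∀ s', ‖s' - s‖ ≤ δ → ∀ ψ : (Site L → Fin d) → ℂ,
            InvariantGroundVector (ham R (h + ∑ j, (s' j : ℂ) • O j) L) ψ →
            ∀ j, (∀ a b, ‖O j a b‖ ≤ 1) →
              ‖(O j * (redState R ψ - redState R (contract A L))).trace‖ ≤ ε) ∧
      ((∀ M : Matrix (R → Fin d) (R → Fin d) ℂ, M.IsHermitian →
          ∃ t : Fin k → ℝ, M = ∑ j, (t j : ℂ) • O j) →
        ∀ R₀ : Finset (ℤ × ℤ), R₀ ⊆ R → ∀ ε : ℝ, 0 < ε →
        ∃ A : Tensor d (bondDim d R₀ ε), ∃ δ : ℝ, 0 < δ ∧ ∃ L₀ : ℕ,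
          ∀ (L : ℕ) [NeZero L], L₀ ≤ L → contract A L ≠ 0 ∧
          ∀ s', ‖s' - s‖ ≤ δ → ∀ ψ : (Site L → Fin d) → ℂ,
            InvariantGroundVector (ham R (h + ∑ j, (s' j : ℂ) • O j) L) ψ →
            traceNorm (redState R₀ ψ - redState R₀ (contract A L)) ≤ ε)) ∧
    -- (B)
    (∀ j : ℕ, dimH {s : Fin k → ℝ | ∃ p : Fin (j + 1) → Fin k → ℝ, AffineIndependent ℝ p ∧
      ∀ l, LimitValue R h O s (p l)} ≤ (k - j : ℕ)) ∧
    {s : Fin k → ℝ | ∃ p : Fin (k + 1) → Fin k → ℝ, AffineIndependent ℝ p ∧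
      ∀ l, LimitValue R h O s (p l)}.Countable :=
  ⟨Pool.Agent.Helper37.Pe.families hd R k hk h hh O hO,
    Pool.Agent.Helper37.Pe.phase_rule hd R k h hh O hO⟩

end Pool.Agent.Results.MP_0f69bf_mp.PhaseDiagrams
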